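-- STUB (sorry). Replace `import Pool.Agent.H180R2.MM.Stub.Grid` by `import Pool.Agent.H180R2.MM.Grid` when finished.
import Pool.Agent.H180R2.MM.Found

namespace Pool.Agent.H180R2.MM
open Finset

/-- `c` columns, `M` rows; the rectangle in column `i` (from the left) and row `j` (from the TOP)
has width `u i j` and height `v i j`, nonincreasing in `i` and in `j`. It occupies
`[X i j, X (i+1) j] × [Y i (j+1), Y i j]` where `X i j = ∑ i' < i, u i' j`,
`Y i j = ∑ j ≤ j' < M, v i j'`. -/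
theorem grid (c M : ℕ) (hc : 1 ≤ c) (hM : 1 ≤ M) (u v : ℕ → ℕ → ℝ)
    (hu : ∀ i < c, ∀ j < M, 0 ≤ u i j) (hv : ∀ i < c, ∀ j < M, 0 ≤ v i j)
    (hmu : ∀ i < c, ∀ j, j + 1 < M → u i (j + 1) ≤ u i j)
    (hmv : ∀ i, i + 1 < c → ∀ j < M, v (i + 1) j ≤ v i j)
    (W T : ℝ) (hW : ∀ j < M, ∑ i ∈ range c, u i j ≤ W) (hT : ∀ i < c, ∑ j ∈ range M, v i j ≤ T) :
    Tile W T (((List.range (c * M)).map fun t => (u (t / M) (t % M), v (t / M) (t % M))) ++
      (((List.range (c - 1)).flatMap fun i => (List.range (M - 1)).map fun j =>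
          (∑ i' ∈ range (i + 1), (u i' j - u i' (j + 1)),
            ∑ j' ∈ Ico (j + 1) M, (v i j' - v (i + 1) j'))) ++
      (((List.range c).map fun i => (u i 0, T - ∑ j ∈ range M, v i j)) ++
      (((List.range M).map fun j => (W - ∑ i ∈ range c, u i j, v (c - 1) j)) ++
      [(W - ∑ i ∈ range c, u i 0, T - ∑ j ∈ range M, v (c - 1) j)])))) := sorry

end Pool.Agent.H180R2.MM
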