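-- STUB (sorry). Replace `import Pool.Agent.H180R2.MM.Stub.Main` by `import Pool.Agent.H180R2.MM.Main` when finished.
import Pool.Agent.H180R2.MM.Found

namespace Pool.Agent.H180R2.MM
open Finset

theorem mainThm {x y : ℕ → ℝ} (hF : Fam x y) (ρ : ℝ) (hρ : 4 ≤ ρ) : ∃ N : ℕ, ∀ n0 ≥ N,
    ∀ a b : ℝ, 0 < a → 0 < b → a ≤ ρ * b → b ≤ ρ * a →
    a * b = ∑' i : ℕ, x (n0 + i) * y (n0 + i) →
    ∃ pos : ℕ → PR, (∀ n ≥ n0, Match (sq x y n) (pos n) ∧ Inside (pos n) ⟨0, 0, a, b⟩) ∧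
      ∀ n ≥ n0, ∀ m ≥ n0, n ≠ m → Disj (pos n) (pos m) := sorry

end Pool.Agent.H180R2.MM
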