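-- STUB (sorry). Replace `import Pool.Agent.H180R2.MM.Stub.Piece` by `import Pool.Agent.H180R2.MM.Piece` when finished.
import Pool.Agent.H180R2.MM.Found

namespace Pool.Agent.H180R2.MM
open Finset

theorem piece {x y : ℕ → ℝ} (hF : Fam x y) : ∃ k0 : ℕ, ∀ k ≥ k0, ∀ d : ℝ × ℝ,
    wk (k + 1) < min d.1 d.2 → min d.1 d.2 ≤ wk k → Phi d ≤ 1 / 10 ^ 9 →
    ∀ U : Finset ℕ, (U.card : ℝ) ≤ 2 ^ k / 10 ^ 6 →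
    ∃ (S : List ℕ) (P' : List (ℝ × ℝ)), S.Nodup ∧
      (∀ n ∈ S, 2 ^ k ≤ n ∧ n < 3 * 2 ^ k ∧ Even n ∧ n ∉ U) ∧
      Refines [d] (S.map (sq x y) ++ P') ∧
      (∀ p ∈ P', 0 ≤ p.1 ∧ 0 ≤ p.2 ∧ min p.1 p.2 ≤ 6 / 10 * min d.1 d.2) ∧
      PhiL P' ≤ Phi d ∧ (S.length : ℝ) ≤ 8 * Phi d * 2 ^ k := sorry

end Pool.Agent.H180R2.MM
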