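-- STUB (sorry). Replace `import Pool.Agent.H180R2.MM.Stub.Reserve` by `import Pool.Agent.H180R2.MM.Reserve` when finished.
import Pool.Agent.H180R2.MM.Found

namespace Pool.Agent.H180R2.MM
open Finset

theorem reserveStage {x y : ℕ → ℝ} (hF : Fam x y) (ρ : ℝ) (hρ : 1 ≤ ρ) : ∃ k0 : ℕ, ∀ k ≥ k0,
    ∀ V : List ℕ, Gap2 V → (∀ n ∈ V, 2 ^ k ≤ n ∧ n < 2 ^ (k + 1)) → ∀ W H : ℝ,
    0 < W → W ≤ H → H ≤ ρ * W → W * H ≤ 2 / 2 ^ k →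
    areaL (V.map (sq x y)) + (1 / 4) / 2 ^ k ≤ W * H →
    ∃ (H' : ℝ) (P' : List (ℝ × ℝ)), 0 ≤ H' ∧ H' ≤ H ∧
      Refines [(W, H)] (V.map (sq x y) ++ (W, H') :: P') ∧
      (∀ p ∈ P', 0 ≤ p.1 ∧ 0 ≤ p.2 ∧ min p.1 p.2 ≤ wk (k + 1)) ∧
      PhiL P' ≤ 10 / (k : ℝ) ^ 2 := sorry

end Pool.Agent.H180R2.MM
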