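-- STUB (sorry). Replace `import Pool.Agent.H180R2.MM.Stub.Select` by `import Pool.Agent.H180R2.MM.Select` when finished.
import Pool.Agent.H180R2.MM.Found

namespace Pool.Agent.H180R2.MM
open Finset

theorem select {x y : ℕ → ℝ} (hF : Fam x y) : ∃ k0 : ℕ, ∀ k ≥ k0, ∀ w h : ℝ,
    wk (k + 1) < w → w ≤ wk k → w ≤ h → h ≤ 1 / 10 ^ 9 →
    ∀ U : Finset ℕ, (U.card : ℝ) ≤ 2 ^ k / 10 ^ 6 →
    ∃ A B : List ℕ, (A ++ B).Nodup ∧ A ≠ [] ∧ B ≠ [] ∧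
      (∀ n ∈ A ++ B, 2 ^ k ≤ n ∧ n < 3 * 2 ^ k ∧ Even n ∧ n ∉ U ∧
        39 / 100 * w ≤ y n ∧ x n ≤ 6 / 10 * w) ∧
      (∀ p ∈ A, ∀ q ∈ B, x p + x q ≤ w ∧ w - x p - x q ≤ 100 * h * w) ∧
      (A.map y).sum ≤ h ∧ h < (A.map y).sum + 6 / 10 * w ∧
      (B.map y).sum ≤ h ∧ h < (B.map y).sum + 6 / 10 * w := sorry

end Pool.Agent.H180R2.MM
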