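-- STUB (sorry). Replace `import Pool.Agent.H180R2.MM.Stub.Slab` by `import Pool.Agent.H180R2.MM.Slab` when finished.
import Pool.Agent.H180R2.MM.Found

namespace Pool.Agent.H180R2.MM
open Finset

theorem slab {x y : ℕ → ℝ} (hF : Fam x y) (k M c : ℕ) (hM : 1 ≤ M) (hc : 1 ≤ c)
    (V : List ℕ) (hV : Gap2 V) (hlen : V.length = c * M)
    (hr : ∀ n ∈ V, 2 ^ k ≤ n ∧ n < 2 ^ (k + 1))
    (n0 n1 : ℕ) (hn0 : n0 ∈ V.head?) (hn1 : n1 ∈ V.getLast?)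
    (W W' : ℝ) (hW : c * x n0 ≤ W) (hW1 : W - c * x n1 ≤ W') (hW2 : 1 / 2 ^ k ≤ W')
    (hW3 : W' ≤ 1) (hsmall : 4 * (c : ℝ) * M ^ 2 ≤ 2 ^ k) :
    ∃ P' : List (ℝ × ℝ), Refines [(W, M * x n0)] (V.map (sq x y) ++ P') ∧
      (∀ p ∈ P', 0 ≤ p.1 ∧ 0 ≤ p.2 ∧ min p.1 p.2 ≤ wk (k + 1)) ∧
      PhiL P' ≤ 7 * (4 * c * M * (c + M ^ 2) / 4 ^ k + c / 2 ^ k + 3 * M * W') := sorry

end Pool.Agent.H180R2.MM
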