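-- STUB (sorry).
import Pool.Agent.H180R2.MM.InvDef

namespace Pool.Agent.H180R2.MM
open Finset

theorem step {x y : ℕ → ℝ} (hF : Fam x y) (ρ : ℝ) (hρ : 4 ≤ ρ) : ∃ k0 : ℕ, ∀ k ≥ k0,
    ∀ (P : List (ℝ × ℝ)) (W H : ℝ) (Us : Finset ℕ), Inv x y ρ k P W H Us →
    ∃ (S : List ℕ) (P' : List (ℝ × ℝ)) (W' H' : ℝ) (Us' : Finset ℕ),
      Inv x y ρ (k + 1) P' W' H' Us' ∧ S.Nodup ∧
      Refines ((W, H) :: P) (S.map (sq x y) ++ (W', H') :: P') ∧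
      ∀ n, n ∈ S ↔ (2 ^ k ≤ n ∧ n < 2 ^ (k + 1) ∧ n ∉ Us) ∨ n ∈ Us' := sorry

end Pool.Agent.H180R2.MM
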