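-- STUB (sorry). Replace `import Pool.Agent.H180R2.MM.Stub.TwoCol` by `import Pool.Agent.H180R2.MM.TwoCol` when finished.
import Pool.Agent.H180R2.MM.Found

namespace Pool.Agent.H180R2.MM
open Finset

/-- Two columns of rectangles (width, height) of the same total height `H`, the left column `L`
flush left, the right column `R` flush right, in a rectangle `w × H`; the gap between them is cut
at all the horizontal levels where one of the two columns changes. -/
theorem twoCol (w H : ℝ) (L R : List (ℝ × ℝ)) (hL0 : L ≠ []) (hR0 : R ≠ [])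
    (hpos : ∀ p ∈ L ++ R, 0 ≤ p.1 ∧ 0 ≤ p.2) (hw : ∀ p ∈ L, ∀ q ∈ R, p.1 + q.1 ≤ w)
    (hL : (L.map Prod.snd).sum = H) (hR : (R.map Prod.snd).sum = H) :
    ∃ Sl : List (ℝ × ℝ), Tile w H (L ++ (R ++ Sl)) ∧ Sl.length ≤ L.length + R.length ∧
      (Sl.map Prod.snd).sum = H ∧
      ∀ s ∈ Sl, 0 ≤ s.2 ∧ ∃ p ∈ L, ∃ q ∈ R, s.1 = w - p.1 - q.1 ∧ s.2 ≤ p.2 := sorry

end Pool.Agent.H180R2.MM
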